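import Pool.Agent.Helper47.RFn.Alg

/-!
# Project RFn (MP_c98eff_gt), packet CB: nonnegative complex sectional curvature controls the tensor
-/

set_option autoImplicit false

namespace Pool.Agent.Helper47.RFn

open Finset

namespace CB80

/-- the real multilinear form of a tensor -/
noncomputable def F {n : ℕ} (R : T4 n) (u v x y : Fin n → ℝ) : ℝ :=
  ∑ a, ∑ b, ∑ c, ∑ d, R a b c d * u a * v b * x c * y d

theorem F_single {n : ℕ} (R : T4 n) (i j k l : Fin n) :
    F R (Pi.single i 1) (Pi.single j 1) (Pi.single k 1) (Pi.single l 1) = R i j k l := by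
  unfold F
  rw [Finset.sum_eq_single i (fun a _ ha => by simp [ha]) (by simp)]
  rw [Finset.sum_eq_single j (fun a _ ha => by simp [ha]) (by simp)]
  rw [Finset.sum_eq_single k (fun a _ ha => by simp [ha]) (by simp)]
  rw [Finset.sum_eq_single l (fun a _ ha => by simp [ha]) (by simp)]
  simp

theorem qf_expand {n : ℕ} (R : T4 n) (u u' v v' : Fin n → ℝ) :
    qf R (fun k => (u k : ℂ) + Complex.I * (u' k : ℂ)) (fun k => (v k : ℂ) + Complex.I * (v' k : ℂ)) =
      F R u v u v - F R u' v' u v + F R u' v u' v + F R u' v u v' + F R u v' u' v + F R u v' u v'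
        - F R u v u' v' + F R u' v' u' v' := by
  unfold qf F
  simp only [← Finset.sum_add_distrib, ← Finset.sum_sub_distrib, Complex.re_sum]
  refine Finset.sum_congr rfl fun a _ => Finset.sum_congr rfl fun b _ =>
    Finset.sum_congr rfl fun c _ => Finset.sum_congr rfl fun d _ => ?_
  simp only [Complex.star_def, map_add, map_mul, Complex.conj_I, Complex.conj_ofReal,
    Complex.mul_re, Complex.mul_im, Complex.add_re, Complex.add_im, Complex.ofReal_re,
    Complex.ofReal_im, Complex.I_re, Complex.I_im, Complex.neg_re, Complex.neg_im]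
  ring

theorem K_nonneg {n : ℕ} {R : T4 n} (hR : C0 R) (u v : Fin n → ℝ) : 0 ≤ F R u v u v := by
  have h := hR.2 (fun k => (u k : ℂ) + Complex.I * ((0 : Fin n → ℝ) k : ℂ))
    (fun k => (v k : ℂ) + Complex.I * ((0 : Fin n → ℝ) k : ℂ))
  rw [qf_expand] at h
  have h0 : ∀ x y z, F R 0 x y z = 0 := fun x y z => by
    unfold F
    simp
  have h1 : ∀ x y z, F R x 0 y z = 0 := fun x y z => by
    unfold F
    simp
  have h2 : ∀ x y z, F R x y 0 z = 0 := fun x y z => by
    unfold F
    simp
  rw [h0, h0, h0, h1, h1, h2, h0] at h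
  simpa using h

theorem sec_nonneg {n : ℕ} {R : T4 n} (hR : C0 R) (a b : Fin n) : 0 ≤ R a b a b := by
  have h := K_nonneg hR (Pi.single a 1) (Pi.single b 1)
  rwa [F_single] at h

theorem nlam {n : ℕ} (hn : 2 ≤ n) (R : T4 n) : (n : ℝ) * lam R = ∑ a, ∑ b, R a b a b := by
  unfold lam Ric
  rw [mul_div_cancel₀]
  exact_mod_cast (by omega : n ≠ 0)

theorem sec_le {n : ℕ} (hn : 2 ≤ n) {R : T4 n} (hR : C0 R) (a b : Fin n) :
    R a b a b ≤ (n : ℝ) * lam R / 2 := by
  rw [nlam hn]
  have hf : ∀ i, 0 ≤ ∑ j, R i j i j := fun i => Finset.sum_nonneg fun j _ => sec_nonneg hR i j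
  rcases eq_or_ne a b with h | h
  · have h1 : R a b a b = 0 := by
      rw [h]
      have := hR.1.a12 b b b b
      linarith
    rw [h1]
    exact div_nonneg (Finset.sum_nonneg fun i _ => hf i) (by norm_num)
  · have h1 : R a b a b ≤ ∑ j, R a j a j :=
      Finset.single_le_sum (f := fun j => R a j a j) (fun j _ => sec_nonneg hR a j)
        (Finset.mem_univ b)
    have h2 : R b a b a ≤ ∑ j, R b j b j :=
      Finset.single_le_sum (f := fun j => R b j b j) (fun j _ => sec_nonneg hR b j)
        (Finset.mem_univ a)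
    have h3 : R b a b a = R a b a b := by
      rw [hR.1.a12 b a b a, hR.1.a34 a b b a]
      ring
    have h4 : ∑ i ∈ ({a, b} : Finset (Fin n)), ∑ j, R i j i j ≤ ∑ i, ∑ j, R i j i j :=
      Finset.sum_le_sum_of_subset_of_nonneg (Finset.subset_univ _) fun i _ _ => hf i
    rw [Finset.sum_pair h] at h4
    linarith

theorem comp_le {n : ℕ} {R : T4 n} (hR : C0 R) (a b c d : Fin n) :
    0 ≤ R a b a b + R c d c d + R a d a d + R c b c b + 2 * R c a b d := by
  have h := hR.2 (fun k => ((Pi.single a 1 : Fin n → ℝ) k : ℂ) +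
      Complex.I * ((Pi.single c 1 : Fin n → ℝ) k : ℂ))
    (fun k => ((Pi.single b 1 : Fin n → ℝ) k : ℂ) +
      Complex.I * ((Pi.single d 1 : Fin n → ℝ) k : ℂ))
  rw [qf_expand] at h
  simp only [F_single] at h
  have h1 := hR.1.bian a b c d
  have h2 := hR.1.pair c d a b
  have h3 := hR.1.pair c b a d
  have h4 := hR.1.a12 c b a d
  linarith

theorem rq_ric {n : ℕ} (R : T4 n) (v : Fin n → ℝ) :
    rq (Ric R) v = ∑ b, F R v (Pi.single b 1) v (Pi.single b 1) := by
  have h1 : ∀ b, F R v (Pi.single b 1) v (Pi.single b 1) = ∑ a, ∑ c, R a b c b * v a * v c := by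
    intro b
    unfold F
    refine Finset.sum_congr rfl fun a _ => ?_
    rw [Finset.sum_eq_single b (fun x _ hx => by simp [hx]) (by simp)]
    refine Finset.sum_congr rfl fun c _ => ?_
    rw [Finset.sum_eq_single b (fun x _ hx => by simp [hx]) (by simp)]
    simp
  rw [Finset.sum_congr rfl fun b _ => h1 b]
  unfold rq Ric
  simp only [Finset.sum_mul]
  conv_rhs => rw [Finset.sum_comm]
  refine (Finset.sum_congr rfl fun a _ => ?_)
  rw [Finset.sum_comm]

/-- a positive semidefinite form is bounded by its trace -/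
theorem rq_le_trace {n : ℕ} (A : M2 n) (hs : ∀ i j, A i j = A j i) (hA : ∀ v, 0 ≤ rq A v)
    (v : Fin n → ℝ) : rq A v ≤ (∑ i, A i i) * nrm v := by
  have h2 : ∀ i j, A i j * v i * v j ≤ (A i i * v j ^ 2 + A j j * v i ^ 2) / 2 := by
    intro i j
    rcases eq_or_ne i j with h | h
    · subst h
      nlinarith
    · have h1 := hA (fun k => v j * (Pi.single i 1 : Fin n → ℝ) k - v i * (Pi.single j 1 : Fin n → ℝ) k)
      have h3 : rq A (fun k => v j * (Pi.single i 1 : Fin n → ℝ) k
          - v i * (Pi.single j 1 : Fin n → ℝ) k) =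
          A i i * v j ^ 2 - 2 * (A i j * v i * v j) + A j j * v i ^ 2 := by
        have h4 : ∀ (c c' : ℝ) (k l : Fin n), ∑ x, ∑ y, A x y * (c * (Pi.single k 1 : Fin n → ℝ) x) *
            (c' * (Pi.single l 1 : Fin n → ℝ) y) = A k l * c * c' := by
          intro c c' k l
          rw [Finset.sum_eq_single k (fun x _ hx => by simp [hx]) (by simp)]
          rw [Finset.sum_eq_single l (fun x _ hx => by simp [hx]) (by simp)]
          simp
        unfold rq
        have h5 : ∀ x y, A x y * (v j * (Pi.single i 1 : Fin n → ℝ) x -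
            v i * (Pi.single j 1 : Fin n → ℝ) x) *
            (v j * (Pi.single i 1 : Fin n → ℝ) y - v i * (Pi.single j 1 : Fin n → ℝ) y) =
            A x y * (v j * (Pi.single i 1 : Fin n → ℝ) x) * (v j * (Pi.single i 1 : Fin n → ℝ) y) -
            A x y * (v j * (Pi.single i 1 : Fin n → ℝ) x) * (v i * (Pi.single j 1 : Fin n → ℝ) y) -
            A x y * (v i * (Pi.single j 1 : Fin n → ℝ) x) * (v j * (Pi.single i 1 : Fin n → ℝ) y) +
            A x y * (v i * (Pi.single j 1 : Fin n → ℝ) x) *
              (v i * (Pi.single j 1 : Fin n → ℝ) y) := fun x y => by ring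
        simp only [h5, Finset.sum_add_distrib, Finset.sum_sub_distrib, h4]
        rw [hs j i]
        ring
      rw [h3] at h1
      linarith
  calc rq A v ≤ ∑ i, ∑ j, (A i i * v j ^ 2 + A j j * v i ^ 2) / 2 :=
        Finset.sum_le_sum fun i _ => Finset.sum_le_sum fun j _ => h2 i j
    _ = (∑ i, A i i) * nrm v := by
        unfold nrm
        simp only [← Finset.sum_div, Finset.sum_add_distrib, ← Finset.mul_sum, ← Finset.sum_mul]
        ring

theorem ric_symm {n : ℕ} {R : T4 n} (hR : IsCurv R) (i j : Fin n) : Ric R i j = Ric R j i := by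
  unfold Ric
  exact Finset.sum_congr rfl fun b _ => hR.pair i b j b

end CB80

theorem goal_CB : Goal_CB := by
  intro n hn R hR
  have hn0 : (0 : ℝ) < n := by exact_mod_cast (by omega : 0 < n)
  have hsum : 0 ≤ (n : ℝ) * lam R := by
    rw [CB80.nlam hn]
    exact Finset.sum_nonneg fun a _ => Finset.sum_nonneg fun b _ => CB80.sec_nonneg hR a b
  have hric : ∀ v, 0 ≤ rq (Ric R) v := fun v => by
    rw [CB80.rq_ric]
    exact Finset.sum_nonneg fun b _ => CB80.K_nonneg hR v _
  refine ⟨nonneg_of_mul_nonneg_right hsum hn0, fun c a b d => ?_, hric, fun v => ?_, fun u v => ?_⟩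
  · have h1 := CB80.comp_le hR a b c d
    have h2 := CB80.comp_le hR c b a d
    have h3 := CB80.sec_le hn hR a b
    have h4 := CB80.sec_le hn hR c d
    have h5 := CB80.sec_le hn hR a d
    have h6 := CB80.sec_le hn hR c b
    have h7 := hR.1.a12 a c b d
    rw [abs_le]
    constructor <;> linarith
  · have h1 := CB80.rq_le_trace (Ric R) (CB80.ric_symm hR.1) hric v
    refine h1.trans (le_of_eq ?_)
    rw [CB80.nlam hn]
    rfl
  · exact CB80.K_nonneg hR u v

end Pool.Agent.Helper47.RFn
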