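import Pool.Agent.Helper80.RFn.CB

/-!
# Project RFn (MP_c98eff_gt), packet RB: the Ricci curvature of the reaction term at a boundary vector
-/

set_option autoImplicit false

namespace Pool.Agent.Helper47.RFn

open Finset

open scoped Matrix

namespace RB80

theorem rq_eq {n : ℕ} (A : M2 n) (v : Fin n → ℝ) : rq A v = star v ⬝ᵥ (A *ᵥ v) := by
  unfold rq dotProduct Matrix.mulVec dotProduct
  refine Finset.sum_congr rfl fun i _ => ?_
  rw [Finset.mul_sum]
  refine Finset.sum_congr rfl fun j _ => ?_
  show A i j * v i * v j = v i * (A i j * v j)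
  ring

theorem rq_eq' {n : ℕ} (A : M2 n) (v : Fin n → ℝ) : rq A v = ∑ i, v i * ∑ j, A i j * v j := by
  unfold rq
  refine Finset.sum_congr rfl fun i _ => ?_
  rw [Finset.mul_sum]
  exact Finset.sum_congr rfl fun j _ => by ring

theorem psd {n : ℕ} {A : M2 n} (hs : ∀ i j, A i j = A j i) (hA : ∀ v, 0 ≤ rq A v) :
    A.PosSemidef := by
  refine Matrix.PosSemidef.of_dotProduct_mulVec_nonneg ?_ fun v => ?_
  · ext i j
    exact (hs i j).symm
  · rw [← rq_eq]
    exact hA v

theorem tr_nonneg {n : ℕ} {G B : M2 n} (hGs : ∀ i j, G i j = G j i) (hG : ∀ v, 0 ≤ rq G v)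
    (hBs : ∀ i j, B i j = B j i) (hB : ∀ v, 0 ≤ rq B v) : 0 ≤ ∑ e, ∑ f, G e f * B e f := by
  have h := ((psd hGs hG).hadamard (psd hBs hB)).dotProduct_mulVec_nonneg (fun _ => (1 : ℝ))
  rw [← rq_eq] at h
  unfold rq at h
  refine h.trans (le_of_eq ?_)
  refine Finset.sum_congr rfl fun i _ => Finset.sum_congr rfl fun j _ => ?_
  rw [Matrix.hadamard_apply]
  ring

theorem null {n : ℕ} {A : M2 n} (hs : ∀ i j, A i j = A j i) (hA : ∀ v, 0 ≤ rq A v)
    {v : Fin n → ℝ} (h0 : rq A v = 0) (i : Fin n) : ∑ j, A i j * v j = 0 := by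
  have h := ((psd hs hA).dotProduct_mulVec_zero_iff v).1 (by rw [← rq_eq]; exact h0)
  exact congrFun h i

theorem ric0_apply {n : ℕ} (R : T4 n) (i j : Fin n) :
    Ric0 R i j = Ric R i j - lam R * (1 : M2 n) i j := rfl

theorem sum_one {n : ℕ} (c : ℝ) (v : Fin n → ℝ) (i : Fin n) :
    ∑ j, c * (1 : M2 n) i j * v j = c * v i := by
  rw [Finset.sum_eq_single i (fun j _ hj => by rw [Matrix.one_apply_ne hj.symm]; ring) (by simp)]
  rw [Matrix.one_apply_eq]
  ring

end RB80

open RB80 CB80

theorem goal_RB (hQB : Goal_QB) : Goal_RB := by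
  intro n hn p S hp hp1 hS hpS v hv
  have hn0 : (0 : ℝ) < n := by exact_mod_cast (by omega : 0 < n)
  -- `A = Ric - p λ`
  set A : M2 n := Matrix.of fun i j => Ric S i j - p * lam S * (1 : M2 n) i j with hAdef
  have hAa : ∀ i j, A i j = Ric S i j - p * lam S * (1 : M2 n) i j := fun i j => rfl
  have hone : ∀ i j : Fin n, (1 : M2 n) i j = (1 : M2 n) j i := fun i j => by
    rw [Matrix.one_apply, Matrix.one_apply]
    simp only [eq_comm]
  have hAs : ∀ i j, A i j = A j i := fun i j => by
    rw [hAa, hAa, ric_symm hS.1 i j, hone i j]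
  have hAq : ∀ w, rq A w = rq (Ric S) w - p * lam S * nrm w := by
    intro w
    rw [rq_eq', rq_eq']
    have h1 : ∀ i, ∑ j, A i j * w j = ∑ j, Ric S i j * w j - p * lam S * w i := by
      intro i
      rw [← sum_one, ← Finset.sum_sub_distrib]
      exact Finset.sum_congr rfl fun j _ => by rw [hAa]; ring
    simp only [h1, mul_sub, Finset.sum_sub_distrib]
    unfold nrm
    rw [Finset.mul_sum]
    congr 1
    exact Finset.sum_congr rfl fun j _ => by ring
  have hApos : ∀ w, 0 ≤ rq A w := fun w => by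
    rw [hAq]
    linarith [hpS w]
  have hA0 : rq A v = 0 := by rw [hAq, hv]; ring
  have hnull := null hAs hApos hA0
  have hRv : ∀ i, ∑ j, Ric S i j * v j = p * lam S * v i := by
    intro i
    have h1 := hnull i
    have h2 : ∑ j, A i j * v j = ∑ j, Ric S i j * v j - p * lam S * v i := by
      rw [← sum_one, ← Finset.sum_sub_distrib]
      exact Finset.sum_congr rfl fun j _ => by rw [hAa]; ring
    linarith
  have hR0v : ∀ i, ∑ j, Ric0 S i j * v j = -((1 - p) * lam S) * v i := by
    intro i
    have h2 : ∑ j, Ric0 S i j * v j = ∑ j, Ric S i j * v j - lam S * v i := by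
      rw [← sum_one, ← Finset.sum_sub_distrib]
      exact Finset.sum_congr rfl fun j _ => by rw [ric0_apply]; ring
    rw [h2, hRv]
    ring
  have hR0s : ∀ i j, Ric0 S i j = Ric0 S j i := fun i j => by
    rw [ric0_apply, ric0_apply, ric_symm hS.1 i j, hone i j]
  refine ⟨?_, fun hv0 => ?_, ?_, ?_⟩
  · -- the reaction term
    set G : M2 n := Matrix.of fun e f => ∑ a, ∑ b, S a e b f * v a * v b with hGdef
    have hGa : ∀ e f, G e f = ∑ a, ∑ b, S a e b f * v a * v b := fun e f => rfl
    have hGs : ∀ e f, G e f = G f e := by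
      intro e f
      rw [hGa, hGa, Finset.sum_comm]
      refine Finset.sum_congr rfl fun a _ => Finset.sum_congr rfl fun b _ => ?_
      rw [hS.1.pair b e a f]
      ring
    have hGpos : ∀ w, 0 ≤ rq G w := by
      intro w
      refine (K_nonneg hS v w).trans (le_of_eq ?_)
      unfold F rq
      simp only [hGa, Finset.sum_mul]
      -- bring the sums to the same order
      have e1 : ∀ a, ∑ b, ∑ c, ∑ d, S a b c d * v a * w b * v c * w d =
          ∑ b, ∑ d, ∑ c, S a b c d * v a * v c * w b * w d := fun a =>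
        Finset.sum_congr rfl fun b _ => by
          rw [Finset.sum_comm]
          exact Finset.sum_congr rfl fun d _ => Finset.sum_congr rfl fun c _ => by ring
      rw [Finset.sum_congr rfl fun a _ => e1 a, Finset.sum_comm]
      refine Finset.sum_congr rfl fun b _ => ?_
      rw [Finset.sum_comm]
    have hGtr : ∑ e, ∑ f, G e f * (1 : M2 n) e f = rq (Ric S) v := by
      have e1 : ∀ e, ∑ f, G e f * (1 : M2 n) e f = G e e := by
        intro e
        rw [Finset.sum_eq_single e (fun j _ hj => by rw [Matrix.one_apply_ne hj.symm]; ring)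
          (by simp)]
        rw [Matrix.one_apply_eq]
        ring
      rw [Finset.sum_congr rfl fun e _ => e1 e]
      unfold rq Ric
      simp only [hGa, Finset.sum_mul]
      rw [Finset.sum_comm]
      refine Finset.sum_congr rfl fun a _ => ?_
      rw [Finset.sum_comm]
    have hmain : rq (Ric (Q S)) v = ∑ e, ∑ f, G e f * Ric S e f := by
      rw [(hQB n).2.2.2.2.2.1 S hS.1]
      unfold rq act
      simp only [hGa, Finset.sum_mul]
      have e1 : ∀ a, ∑ b, ∑ e, ∑ f, S a e b f * Ric S e f * v a * v b =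
          ∑ e, ∑ f, ∑ b, S a e b f * v a * v b * Ric S e f := by
        intro a
        rw [Finset.sum_comm]
        refine Finset.sum_congr rfl fun e _ => ?_
        rw [Finset.sum_comm]
        exact Finset.sum_congr rfl fun f _ => Finset.sum_congr rfl fun b _ => by ring
      rw [Finset.sum_congr rfl fun a _ => e1 a, Finset.sum_comm]
      refine Finset.sum_congr rfl fun e _ => ?_
      rw [Finset.sum_comm]
    have hsplit : ∑ e, ∑ f, G e f * Ric S e f =
        ∑ e, ∑ f, G e f * A e f + p * lam S * ∑ e, ∑ f, G e f * (1 : M2 n) e f := by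
      rw [Finset.mul_sum, ← Finset.sum_add_distrib]
      refine Finset.sum_congr rfl fun e _ => ?_
      rw [Finset.mul_sum, ← Finset.sum_add_distrib]
      refine Finset.sum_congr rfl fun f _ => ?_
      rw [hAa]
      ring
    have hpos := tr_nonneg hGs hGpos hAs hApos
    rw [hmain, hsplit, hGtr, hv]
    linarith
  · -- the lower bound for `sig`
    have hnv : 0 < nrm v := by
      unfold nrm
      obtain ⟨i, hi⟩ : ∃ i, v i ≠ 0 := by
        by_contra hc
        push Not at hc
        exact hv0 (funext hc)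
      exact Finset.sum_pos' (fun j _ => sq_nonneg _) ⟨i, Finset.mem_univ i, by positivity⟩
    have h1 : (1 - p) ^ 2 * lam S ^ 2 * nrm v ≤ (∑ a, ∑ b, Ric0 S a b ^ 2) * nrm v := by
      have h2 : (1 - p) ^ 2 * lam S ^ 2 * nrm v = ∑ i, (∑ j, Ric0 S i j * v j) ^ 2 := by
        simp only [hR0v]
        unfold nrm
        rw [Finset.mul_sum]
        exact Finset.sum_congr rfl fun i _ => by ring
      rw [h2, Finset.sum_mul]
      refine Finset.sum_le_sum fun i _ => ?_
      exact Finset.sum_mul_sq_le_sq_mul_sq _ _ _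
    have h3 : (1 - p) ^ 2 * lam S ^ 2 ≤ ∑ a, ∑ b, Ric0 S a b ^ 2 := le_of_mul_le_mul_right h1 hnv
    unfold sig
    exact div_le_div_of_nonneg_right h3 hn0.le
  · rw [rq_eq']
    simp only [hR0v]
    unfold nrm
    rw [Finset.mul_sum]
    exact Finset.sum_congr rfl fun i _ => by ring
  · have h1 : rq (Ric0 S * Ric0 S) v = ∑ k, (∑ i, Ric0 S k i * v i) * ∑ j, Ric0 S k j * v j := by
      unfold rq
      simp only [Matrix.mul_apply, Finset.sum_mul, Finset.mul_sum]
      have e1 : ∀ i, ∑ j, ∑ k, Ric0 S i k * Ric0 S k j * v i * v j =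
          ∑ k, ∑ j, Ric0 S i k * Ric0 S k j * v i * v j := fun i => Finset.sum_comm
      rw [Finset.sum_congr rfl fun i _ => e1 i, Finset.sum_comm]
      refine Finset.sum_congr rfl fun k _ => Finset.sum_congr rfl fun i _ =>
        Finset.sum_congr rfl fun j _ => ?_
      rw [hR0s i k]
      ring
    rw [h1]
    simp only [hR0v]
    unfold nrm
    rw [Finset.mul_sum]
    exact Finset.sum_congr rfl fun i _ => by ring

end Pool.Agent.Helper47.RFn
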